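import Pool.Agent.W478R.ScalarDefs

/-! Auxiliary scalar lemmas. -/

set_option autoImplicit false

namespace Pool.Agent.W22.RS

open W478R Filter Topology

theorem box (Φ : ℝ × ℝ × ℝ → ℝ) (hc : ContinuousAt Φ (0, 1, 0)) (h0 : 0 < Φ (0, 1, 0)) :
    ∃ δ : ℝ, 0 < δ ∧ ∀ h Z u : ℝ, |h| ≤ δ → |Z - 1| ≤ δ → |u| ≤ δ → 0 < Φ (h, Z, u) := by
  have h1 : ∀ᶠ q in 𝓝 ((0, 1, 0) : ℝ × ℝ × ℝ), 0 < Φ q := hc.eventually (lt_mem_nhds h0)
  obtain ⟨r, hr, h2⟩ := Metric.eventually_nhds_iff.mp h1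
  refine ⟨r / 2, half_pos hr, fun h Z u hh hZ hu => h2 ?_⟩
  rw [Prod.dist_eq, Prod.dist_eq]
  simp only [Real.dist_eq, sub_zero]
  exact max_lt (by linarith) (max_lt (by linarith) (by linarith))

/-- the exponential limit from below -/
theorem second (t L e : ℝ) (n : ℕ) (he : |e| ≤ 1 / 2) (ht : |t| ≤ L) (hL : 0 < L) (hn0 : 0 < n)
    (hn : 4 * L ≤ n) :
    Real.exp (t - 2 * L * |e| - 8 * L ^ 2 / n) ≤ (max (1 + t / ((n : ℝ) * (1 + e))) 0) ^ n := by
  have hn0' : (0 : ℝ) < n := by exact_mod_cast hn0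
  obtain ⟨he1, he2⟩ := abs_le.mp he
  obtain ⟨ht1, ht2⟩ := abs_le.mp ht
  have he3 : 1 / 2 ≤ 1 + e := by linarith
  have hpos : 0 < (n : ℝ) * (1 + e) := by positivity
  set y := t / ((n : ℝ) * (1 + e)) with hy
  have hyabs : |y| ≤ 2 * L / n := by
    rw [hy, abs_div, abs_of_pos hpos, div_le_div_iff₀ hpos hn0']
    have : |t| * n ≤ L * n := by gcongr
    nlinarith [mul_pos hL hn0']
  have hy2 : 2 * L / n ≤ 1 / 2 := by
    rw [div_le_div_iff₀ hn0' (by norm_num)]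
    linarith
  obtain ⟨hy3, hy4⟩ := abs_le.mp (hyabs.trans hy2)
  have h1y : 0 < 1 + y := by linarith
  have hlog : y - 2 * y ^ 2 ≤ Real.log (1 + y) := by
    have h1 := Real.one_sub_inv_le_log_of_pos h1y
    refine le_trans ?_ h1
    have h2 : 1 - (1 + y)⁻¹ = y / (1 + y) := by
      field_simp
      ring
    rw [h2, le_div_iff₀ h1y]
    nlinarith [sq_nonneg y]
  have hmax : max (1 + y) 0 = 1 + y := max_eq_left h1y.le
  rw [hmax]
  have h3 : (1 + y) ^ n = Real.exp (n * Real.log (1 + y)) := by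
    rw [mul_comm, ← Real.rpow_def_of_pos h1y, Real.rpow_natCast]
  rw [h3, Real.exp_le_exp]
  have h4 : (n : ℝ) * (y - 2 * y ^ 2) ≤ n * Real.log (1 + y) := by gcongr
  refine le_trans ?_ h4
  have h5 : (n : ℝ) * y = t / (1 + e) := by
    rw [hy]
    field_simp
  have h6 : t - 2 * L * |e| ≤ t / (1 + e) := by
    rw [le_div_iff₀ (by linarith)]
    have h7 : t * e ≤ L * |e| := by
      refine (le_abs_self _).trans ?_
      rw [abs_mul]
      gcongr
    have h8 : 2 * L * |e| * (1 / 2) ≤ 2 * L * |e| * (1 + e) := by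
      have : 0 ≤ 2 * L * |e| := by positivity
      gcongr
    nlinarith
  have h9 : (n : ℝ) * (2 * y ^ 2) ≤ 8 * L ^ 2 / n := by
    have h10 : y ^ 2 ≤ (2 * L / n) ^ 2 := sq_le_sq' (by linarith [(abs_le.mp hyabs).1])
      (abs_le.mp hyabs).2
    have h11 : (n : ℝ) * (2 * (2 * L / n) ^ 2) = 8 * L ^ 2 / n := by
      field_simp
      ring
    rw [← h11]
    gcongr
  linarith

/-- Bernoulli for the first factor -/
theorem first (N : ℕ) (hN : 0 < N) (a e : ℝ) (he : -2 ≤ e) (h : a = 2 * N * e) (h0 : 0 ≤ 1 + a) :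
    (1 + a) ^ N ≤ (1 + e) ^ (2 * N ^ 2) := by
  have h1 := one_add_mul_le_pow he (2 * N)
  have h2 : 1 + a ≤ (1 + e) ^ (2 * N) := by
    refine le_trans (le_of_eq ?_) h1
    rw [h]
    push_cast
    ring
  calc (1 + a) ^ N ≤ ((1 + e) ^ (2 * N)) ^ N := pow_le_pow_left₀ h0 h2 N
    _ = (1 + e) ^ (2 * N ^ 2) := by
        rw [← pow_mul]
        congr 1
        ring

end Pool.Agent.W22.RS
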