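import Pool.Agent.W478R.ScalarDefs
import Pool.Agent.W22.RS.Bas

set_option autoImplicit false

namespace Pool.Agent.W22.RS

open W478R Filter Topology

theorem hardScalar : HardScalar := by
  intro p β L ε hp hp1 hβ hL hε hε1
  set Φ : ℝ × ℝ × ℝ → ℝ := fun q => (1 + β * q.1 / (1 + q.1)) -
    (1 - ε) * (1 / q.2.1) ^ β *
      Real.exp (2 * L * |(1 + β * q.2.2) / 2 * q.2.2 * q.1| + 8 * L ^ 2 * q.2.2 ^ 2) with hΦ
  have hc : ContinuousAt Φ (0, 1, 0) := by
    have c1 : ContinuousAt (fun q : ℝ × ℝ × ℝ => 1 + β * q.1 / (1 + q.1)) (0, 1, 0) := by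
      refine ContinuousAt.add continuousAt_const (ContinuousAt.div ?_ ?_ (by norm_num))
      · fun_prop
      · fun_prop
    have c2 : ContinuousAt (fun q : ℝ × ℝ × ℝ => (1 / q.2.1) ^ β) (0, 1, 0) := by
      refine ContinuousAt.rpow_const ?_ (Or.inl (by norm_num))
      refine ContinuousAt.div continuousAt_const ?_ (by norm_num)
      fun_prop
    have c3 : ContinuousAt (fun q : ℝ × ℝ × ℝ =>
        Real.exp (2 * L * |(1 + β * q.2.2) / 2 * q.2.2 * q.1| + 8 * L ^ 2 * q.2.2 ^ 2))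
        (0, 1, 0) := by
      fun_prop
    exact c1.sub ((continuousAt_const.mul c2).mul c3)
  have h0 : 0 < Φ (0, 1, 0) := by
    simp [hΦ]
    exact hε
  obtain ⟨δ0, hδ0, hbox⟩ := box Φ hc h0
  refine ⟨min δ0 (min (1 / 4) (min (1 / (4 * L)) (1 / (4 * β)))), ?_, ?_⟩
  · positivity
  intro N h Z ξ Γ hN hh hZ hξ hΓ hΓ2
  set δ := min δ0 (min (1 / 4) (min (1 / (4 * L)) (1 / (4 * β)))) with hδ
  have d0 : δ ≤ δ0 := min_le_left _ _
  have d1 : δ ≤ 1 / 4 := (min_le_right _ _).trans (min_le_left _ _)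
  have d2 : δ ≤ 1 / (4 * L) := (min_le_right _ _).trans ((min_le_right _ _).trans (min_le_left _ _))
  have d3 : δ ≤ 1 / (4 * β) := (min_le_right _ _).trans ((min_le_right _ _).trans (min_le_right _ _))
  have hδpos : 0 < δ := by positivity
  have hNpos : (0 : ℝ) < N := by
    by_contra hcon
    have : (N : ℝ) ≤ 0 := not_lt.mp hcon
    nlinarith
  have hN0 : 0 < N := by exact_mod_cast hNpos
  set u : ℝ := 1 / N with hu
  have hupos : 0 < u := by positivity
  have hud : u ≤ δ := by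
    rw [hu, div_le_iff₀ hNpos]
    exact hN
  have hbu : β * u ≤ 1 / 4 := by
    calc β * u ≤ β * (1 / (4 * β)) := by gcongr; exact hud.trans d3
      _ = 1 / 4 := by field_simp
  have hg : β / N = β * u := by rw [hu]; ring
  obtain ⟨hh1, hh2⟩ := abs_le.mp (hh.trans d1)
  obtain ⟨hZ1, hZ2⟩ := abs_le.mp (hZ.trans d1)
  have hZpos : 0 < Z := by linarith
  have heta : eta β N h = (1 + β * u) / 2 * u * h := by
    rw [eta, hg, hu]
    field_simp
  have hetab : |eta β N h| ≤ 1 / 2 := by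
    rw [heta, abs_mul, abs_of_pos (by positivity)]
    have : (1 + β * u) / 2 * u ≤ (1 + 1 / 4) / 2 * (1 / 4) := by
      gcongr
      exact hud.trans d1
    have h4 : |h| ≤ 1 / 4 := hh.trans d1
    have := mul_le_mul this h4 (abs_nonneg _) (by norm_num)
    linarith
  -- Φ
  have hΦpos := hbox h Z u (hh.trans d0) (hZ.trans d0) (by rw [abs_of_pos hupos]; exact hud.trans d0)
  simp only [hΦ] at hΦpos
  -- the second factor
  have hn4 : 4 * L ≤ ((N ^ 2 : ℕ) : ℝ) := by
    have e1 : 4 * L ≤ N := by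
      have : 1 ≤ (1 / (4 * L)) * N := hN.trans (by gcongr)
      rw [div_mul_eq_mul_div, one_mul, le_div_iff₀ (by positivity)] at this
      linarith
    have e2 : (N : ℝ) ≤ (N : ℝ) ^ 2 := by
      have : (1 : ℝ) ≤ N := by exact_mod_cast hN0
      nlinarith
    push_cast
    linarith
  have hsec := second ξ L (eta β N h) (N ^ 2) hetab hξ hL (by positivity) hn4
  have hsec2 : Real.exp ξ * Real.exp (-(2 * L * |(1 + β * u) / 2 * u * h| + 8 * L ^ 2 * u ^ 2)) ≤
      (max (1 + ξ / ((N : ℝ) ^ 2 * (1 + eta β N h))) 0) ^ (N ^ 2) := by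
    rw [← Real.exp_add]
    refine le_trans (le_of_eq ?_) (hsec.trans (le_of_eq ?_))
    · congr 1
      rw [heta, hu]
      push_cast
      field_simp
      ring
    · push_cast
      rfl
  -- the first factor
  have ha : (1 + β * u) * h = 2 * N * eta β N h := by
    rw [heta, hu]
    field_simp
  have ha0 : 0 ≤ 1 + (1 + β * u) * h := by
    have e5 := mul_le_mul_of_nonneg_left hh1 (by positivity : 0 ≤ 1 + β * u)
    linarith
  have hfirst := first N hN0 ((1 + β * u) * h) (eta β N h)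
    (by linarith [(abs_le.mp hetab).1]) ha ha0
  have h1h : 0 < 1 + h := by linarith
  have hfac : (1 + h) ^ N * (1 + β * h / (1 + h)) ≤ (1 + eta β N h) ^ (2 * N ^ 2) := by
    refine le_trans ?_ hfirst
    have e1 : 1 + (1 + β * u) * h = (1 + h) * (1 + β * u * h / (1 + h)) := by
      field_simp
      ring
    rw [e1, mul_pow]
    have e2 : -2 ≤ β * u * h / (1 + h) := by
      rw [le_div_iff₀ h1h]
      have e5 := mul_le_mul_of_nonneg_left hh1 (by positivity : 0 ≤ β * u)
      linarith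
    have e3 := one_add_mul_le_pow e2 N
    have e4 : (N : ℝ) * (β * u * h / (1 + h)) = β * h / (1 + h) := by
      rw [hu]
      field_simp
    rw [e4] at e3
    exact mul_le_mul_of_nonneg_left e3 (by positivity)
  -- the left side
  have hpZ : 0 < p * Z := by positivity
  have hΓN : Γ ^ N ≤ (1 / (p * Z)) ^ β * (1 + h) ^ N := by
    calc Γ ^ N ≤ ((1 / (p * Z)) ^ (β / N) * (1 + h)) ^ N := pow_le_pow_left₀ hΓ hΓ2 N
      _ = (1 / (p * Z)) ^ β * (1 + h) ^ N := by
        rw [mul_pow, ← Real.rpow_natCast, ← Real.rpow_mul (by positivity)]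
        congr 2
        field_simp
  have hpp : p ^ β * (1 / (p * Z)) ^ β = (1 / Z) ^ β := by
    rw [← Real.mul_rpow hp.le (by positivity)]
    congr 1
    field_simp
  set κ := 2 * L * |(1 + β * u) / 2 * u * h| + 8 * L ^ 2 * u ^ 2 with hκ
  have hfin : (1 - ε) * (1 / Z) ^ β ≤ (1 + β * h / (1 + h)) * Real.exp (-κ) := by
    rw [Real.exp_neg, ← div_eq_mul_inv, le_div_iff₀ (Real.exp_pos _)]
    linarith
  have hpb : 0 < p ^ β := Real.rpow_pos_of_pos hp β
  calc (1 - ε) * Real.exp ξ * p ^ β * Γ ^ N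
      ≤ (1 - ε) * Real.exp ξ * p ^ β * ((1 / (p * Z)) ^ β * (1 + h) ^ N) := by
        have : 0 ≤ (1 - ε) * Real.exp ξ * p ^ β := by
          have := Real.exp_pos ξ
          have : 0 ≤ 1 - ε := by linarith
          positivity
        gcongr
    _ = ((1 - ε) * (1 / Z) ^ β) * (Real.exp ξ * (1 + h) ^ N) := by
        rw [← hpp]
        ring
    _ ≤ ((1 + β * h / (1 + h)) * Real.exp (-κ)) * (Real.exp ξ * (1 + h) ^ N) := by
        gcongr
    _ = ((1 + h) ^ N * (1 + β * h / (1 + h))) * (Real.exp ξ * Real.exp (-κ)) := by ring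
    _ ≤ (1 + eta β N h) ^ (2 * N ^ 2) *
        (max (1 + ξ / ((N : ℝ) ^ 2 * (1 + eta β N h))) 0) ^ (N ^ 2) := by
        refine mul_le_mul hfac hsec2 (by positivity) ?_
        have : 0 ≤ 1 + eta β N h := by linarith [(abs_le.mp hetab).1]
        positivity

theorem hSmall : HSmall := by
  intro p β δ hp hp1 hβ hδ
  set K := 2 / p with hK
  have hK1 : 1 ≤ K := by
    rw [hK, le_div_iff₀ hp]
    linarith
  have hlim : Tendsto (fun N : ℕ => 4 * ((K ^ (β / N) - 1) * K + β / N)) atTop (𝓝 0) := by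
    have h1 : Tendsto (fun N : ℕ => β / (N : ℝ)) atTop (𝓝 0) := tendsto_const_div_atTop_nhds_zero_nat β
    have h2 : Tendsto (fun N : ℕ => K ^ (β / (N : ℝ))) atTop (𝓝 (K ^ (0 : ℝ))) :=
      ((Real.continuous_const_rpow (by positivity)).tendsto 0).comp h1
    rw [Real.rpow_zero] at h2
    have h3 := (((h2.sub_const 1).mul_const K).add h1).const_mul 4
    simpa using h3
  have hev := hlim.eventually (gt_mem_nhds (show (0 : ℝ) < δ ^ 2 by positivity))
  have hev2 : ∀ᶠ N : ℕ in atTop, β / (N : ℝ) < 1 :=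
    (tendsto_const_div_atTop_nhds_zero_nat β).eventually (gt_mem_nhds one_pos)
  obtain ⟨N0, hN0⟩ := eventually_atTop.mp (hev.and hev2)
  refine ⟨max N0 1, by positivity, ?_⟩
  intro N hN h Z Γ hh hZ1 hZ2 hhZ hΓ hΓ2 hpow
  have hNpos : 0 < N := (Nat.zero_lt_one.trans_le (le_max_right _ _)).trans_le hN
  obtain ⟨hlt, hg1⟩ := hN0 N ((le_max_left _ _).trans hN)
  have hNR : (0 : ℝ) < N := by exact_mod_cast hNpos
  set g := β / (N : ℝ) with hg
  have hg0 : 0 < g := by positivity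
  have hpZ : 0 < p * Z := by positivity
  have hinv : 1 / (p * Z) ≤ K := by
    rw [hK, div_le_div_iff₀ hpZ hp]
    nlinarith
  -- N-th root
  have h1 : (1 + eta β N h) ^ (2 * N) ≤ Γ := by
    have e1 : (1 + eta β N h) ^ (2 * N ^ 2) = ((1 + eta β N h) ^ (2 * N)) ^ N := by
      rw [← pow_mul]
      congr 1
      ring
    rw [e1] at hpow
    exact le_of_pow_le_pow_left₀ hNpos.ne' hΓ hpow
  have heta : eta β N h = (1 + g) / (2 * N) * h := rfl
  have h2 : 1 + (1 + g) * h / 2 ≤ (1 + eta β N h) ^ N := by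
    have e1 : -2 ≤ eta β N h := by
      rw [heta]
      have e2 : (1 + g) / (2 * N) ≤ 1 := by
        rw [div_le_one (by positivity)]
        have : (1 : ℝ) ≤ N := by exact_mod_cast hNpos
        linarith
      have e3 : 0 ≤ (1 + g) / (2 * N) := by positivity
      nlinarith
    have e4 := one_add_mul_le_pow e1 N
    refine le_trans (le_of_eq ?_) e4
    rw [heta]
    field_simp
  have h3 : 0 ≤ 1 + (1 + g) * h / 2 := by nlinarith
  have h4 : (1 + (1 + g) * h / 2) ^ 2 ≤ Γ := by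
    refine le_trans ?_ h1
    calc (1 + (1 + g) * h / 2) ^ 2 ≤ ((1 + eta β N h) ^ N) ^ 2 := pow_le_pow_left₀ h3 h2 2
      _ = (1 + eta β N h) ^ (2 * N) := by
        rw [← pow_mul]
        congr 1
        ring
  have h5 : 1 + (1 + g) * h + h ^ 2 / 4 ≤ (1 / (p * Z)) ^ g * (1 + h) := by
    refine le_trans ?_ (h4.trans hΓ2)
    nlinarith [sq_nonneg h, mul_nonneg hg0.le (sq_nonneg h), sq_nonneg (g * h)]
  have h6 : (1 / (p * Z)) ^ g ≤ K ^ g := Real.rpow_le_rpow (by positivity) hinv hg0.le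
  have h7 : 1 ≤ K ^ g := Real.one_le_rpow hK1 hg0.le
  have h8 : h ^ 2 < δ ^ 2 := by
    have e1 : (1 / (p * Z)) ^ g * (1 + h) ≤ K ^ g * (1 + h) :=
      mul_le_mul_of_nonneg_right h6 (by linarith)
    have e2 : (K ^ g - 1) * (1 + h) ≤ (K ^ g - 1) * K :=
      mul_le_mul_of_nonneg_left (hhZ.trans hinv) (by linarith)
    have e3 : -(g * h) ≤ g := by nlinarith
    nlinarith
  exact (abs_lt_of_sq_lt_sq h8 hδ.le).le

end Pool.Agent.W22.RS
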