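import Pool.Agent.W478R.ScalarDefs
import Pool.Agent.W22.RS.Bas

set_option autoImplicit false

namespace Pool.Agent.W22.RS

open W478R Filter Topology

/-- terms `0, 1, 8` of the binomial expansion -/
theorem pow_lower (n : ℕ) (y : ℝ) (hn : 9 ≤ n) :
    1 + y + (n.choose 8 : ℝ) / (n : ℝ) ^ 8 * (max y 0) ^ 8 ≤ (max (1 + y / n) 0) ^ n := by
  have hnR : (0 : ℝ) < n := by
    have : (9 : ℝ) ≤ n := by exact_mod_cast hn
    linarith
  rcases le_or_gt y 0 with hy | hy
  · rw [max_eq_right hy]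
    simp only [ne_eq, OfNat.ofNat_ne_zero, not_false_eq_true, zero_pow, mul_zero, add_zero]
    rcases le_or_gt (1 + y / n) 0 with h1 | h1
    · rw [max_eq_right h1, zero_pow (by omega)]
      have h2 : (1 + y / n) * n ≤ 0 := mul_nonpos_of_nonpos_of_nonneg h1 hnR.le
      have h3 : (1 + y / n) * n = n + y := by field_simp
      have h4 : (9 : ℝ) ≤ n := by exact_mod_cast hn
      linarith
    · rw [max_eq_left h1.le]
      have h2 : -2 ≤ y / n := by linarith
      have h3 := one_add_mul_le_pow h2 n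
      refine le_trans (le_of_eq ?_) h3
      field_simp
  · have hx : 0 ≤ y / n := by positivity
    rw [max_eq_left hy.le, max_eq_left (by linarith)]
    set x := y / n with hxd
    have e1 : (1 + x) ^ n = ∑ m ∈ Finset.range (n + 1), x ^ m * (n.choose m : ℝ) := by
      rw [add_comm, add_pow]
      simp
    have hsub : ({0, 1, 8} : Finset ℕ) ⊆ Finset.range (n + 1) := by
      intro m hm
      simp only [Finset.mem_insert, Finset.mem_singleton] at hm
      rw [Finset.mem_range]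
      omega
    have e2 : ∑ m ∈ ({0, 1, 8} : Finset ℕ), x ^ m * (n.choose m : ℝ) ≤ (1 + x) ^ n := by
      rw [e1]
      exact Finset.sum_le_sum_of_subset_of_nonneg hsub fun m _ _ => by positivity
    refine le_trans (le_of_eq ?_) e2
    have e3 : y = x * n := by
      rw [hxd]
      field_simp
    rw [Finset.sum_insert (by simp), Finset.sum_insert (by simp), Finset.sum_singleton, e3]
    simp only [pow_zero, Nat.choose_zero_right, Nat.cast_one, mul_one, pow_one,
      Nat.choose_one_right]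
    field_simp
    ring

theorem choose_lower (n : ℕ) (hn : 8 ≤ n) :
    (1 - 7 / (n : ℝ)) ^ 8 / 40320 ≤ (n.choose 8 : ℝ) / (n : ℝ) ^ 8 := by
  have hnR : (0 : ℝ) < n := by
    have : (8 : ℝ) ≤ n := by exact_mod_cast hn
    linarith
  have h1 : (n + 1 - 8) ^ 8 ≤ n.descFactorial 8 := Nat.pow_sub_le_descFactorial n 8
  have h2 : n.descFactorial 8 = 40320 * n.choose 8 := by
    rw [Nat.descFactorial_eq_factorial_mul_choose]
    rfl
  have h3 : ((n : ℝ) - 7) ^ 8 ≤ 40320 * (n.choose 8 : ℝ) := by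
    have h4 : (((n + 1 - 8 : ℕ) : ℝ)) = (n : ℝ) - 7 := by
      rw [Nat.cast_sub (by omega)]
      push_cast
      ring
    rw [← h4]
    rw [h2] at h1
    exact_mod_cast h1
  have h5 : (1 - 7 / (n : ℝ)) = ((n : ℝ) - 7) / n := by
    field_simp
  rw [h5, div_pow, div_div, div_le_div_iff₀ (by positivity) (by positivity)]
  have h6 : 0 ≤ (n : ℝ) ^ 8 := by positivity
  nlinarith [mul_le_mul_of_nonneg_right h3 h6]

theorem momScalar_s (s : ℝ) (hs : s = 1 / 5 ∨ s = -(1 / 5)) (p β B0 ε : ℝ) (hp : 1 / 5 < p)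
    (hp1 : p < 1) (hβ : 0 < β) (hB : β * (1 - p) ≤ B0 * p) (hε : 0 < ε) :
    ∃ δ : ℝ, 0 < δ ∧ ∀ (N : ℕ) (h Z Γ M : ℝ), 1 ≤ δ * N → |h| ≤ δ → |Z - 1| ≤ δ →
    0 ≤ Γ → 0 ≤ M →
    Γ ≤ 1 + (1 + β / N) * (s * h) + β / N * (s ^ 2 * ((1 + h) / (p * Z) - 1 - 2 * h)) →
    (1 + s * eta β N h) ^ (2 * N ^ 2)
      * (1 + ((N ^ 2).choose 8 : ℝ) / ((N : ℝ) ^ 2) ^ 8 * (M / (1 + s * eta β N h) ^ 8)) ≤ Γ ^ N →
    M / s ^ 8 ≤ 15750000000 * (Real.exp (B0 / 25) - 1) + ε := by
  have hsabs : |s| = 1 / 5 := by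
    rcases hs with rfl | rfl
    · norm_num
    · norm_num
  have hs2 : s ^ 2 = 1 / 25 := by rw [← sq_abs, hsabs]; norm_num
  have hs8 : s ^ 8 = 1 / 390625 := by
    rw [show s ^ 8 = (s ^ 2) ^ 4 by ring, hs2]; norm_num
  have hppos : 0 < p := by linarith
  set Φ : ℝ × ℝ × ℝ → ℝ := fun q => 15750000000 * (Real.exp (B0 / 25) - 1) + ε -
    15750000000 * (Real.exp (β * (s ^ 2 * ((1 + q.1) / (p * q.2.1) - 1 - 2 * q.1)) /
      (1 + (1 + β * q.2.2) * (s * q.1))) - 1) *
      (1 + s * ((1 + β * q.2.2) / 2 * q.2.2 * q.1)) ^ 8 / (1 - 7 * q.2.2 ^ 2) ^ 8 with hΦ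
  have hc : ContinuousAt Φ (0, 1, 0) := by
    have c1 : ContinuousAt (fun q : ℝ × ℝ × ℝ => (1 + q.1) / (p * q.2.1)) (0, 1, 0) := by
      refine ContinuousAt.div ?_ ?_ ?_
      · fun_prop
      · fun_prop
      · show p * 1 ≠ 0
        rw [mul_one]
        exact hppos.ne'
    have c2 : ContinuousAt (fun q : ℝ × ℝ × ℝ =>
        β * (s ^ 2 * ((1 + q.1) / (p * q.2.1) - 1 - 2 * q.1)) /
        (1 + (1 + β * q.2.2) * (s * q.1))) (0, 1, 0) := by
      refine ContinuousAt.div ?_ ?_ ?_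
      · exact continuousAt_const.mul (continuousAt_const.mul ((c1.sub continuousAt_const).sub
          (by fun_prop)))
      · fun_prop
      · show 1 + (1 + β * 0) * (s * 0) ≠ 0
        norm_num
    have c3 : ContinuousAt (fun q : ℝ × ℝ × ℝ =>
        15750000000 * (Real.exp (β * (s ^ 2 * ((1 + q.1) / (p * q.2.1) - 1 - 2 * q.1)) /
      (1 + (1 + β * q.2.2) * (s * q.1))) - 1) *
      (1 + s * ((1 + β * q.2.2) / 2 * q.2.2 * q.1)) ^ 8 / (1 - 7 * q.2.2 ^ 2) ^ 8) (0, 1, 0) := by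
      refine ContinuousAt.div ?_ ?_ ?_
      · refine ContinuousAt.mul (continuousAt_const.mul ?_) (by fun_prop)
        exact (Real.continuous_exp.continuousAt.comp c2).sub continuousAt_const
      · fun_prop
      · show (1 - 7 * (0 : ℝ) ^ 2) ^ 8 ≠ 0
        norm_num
    exact continuousAt_const.sub c3
  have h0 : 0 < Φ (0, 1, 0) := by
    have e1 : β * (s ^ 2 * ((1 + 0) / (p * 1) - 1 - 2 * 0)) / (1 + (1 + β * 0) * (s * 0)) ≤
        B0 / 25 := by
      rw [hs2]
      have : (1 + 0) / (p * 1) - 1 - 2 * 0 = (1 - p) / p := by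
        field_simp
        ring
      rw [this]
      simp only [mul_zero, add_zero, div_one]
      rw [show β * (1 / 25 * ((1 - p) / p)) = (β * (1 - p) / p) / 25 by ring]
      gcongr
      rw [div_le_iff₀ hppos]
      exact hB
    have e2 := Real.exp_le_exp.mpr e1
    show 0 < 15750000000 * (Real.exp (B0 / 25) - 1) + ε -
      15750000000 * (Real.exp (β * (s ^ 2 * ((1 + 0) / (p * 1) - 1 - 2 * 0)) /
      (1 + (1 + β * 0) * (s * 0))) - 1) *
      (1 + s * ((1 + β * 0) / 2 * 0 * 0)) ^ 8 / (1 - 7 * 0 ^ 2) ^ 8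
    have e3 : (1 + s * ((1 + β * 0) / 2 * 0 * 0)) ^ 8 = 1 := by ring
    have e4 : ((1 : ℝ) - 7 * 0 ^ 2) ^ 8 = 1 := by ring
    rw [e3, e4]
    linarith
  obtain ⟨δ0, hδ0, hbox⟩ := box Φ hc h0
  refine ⟨min δ0 (min (1 / 4) (1 / (4 * β))), by positivity, ?_⟩
  intro N h Z Γ M hN hh hZ hΓ hM hΓ2 hpow
  set δ := min δ0 (min (1 / 4) (1 / (4 * β))) with hδ
  have d0 : δ ≤ δ0 := min_le_left _ _
  have d1 : δ ≤ 1 / 4 := (min_le_right _ _).trans (min_le_left _ _)
  have d3 : δ ≤ 1 / (4 * β) := (min_le_right _ _).trans (min_le_right _ _)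
  have hδpos : 0 < δ := by positivity
  have hNpos : (0 : ℝ) < N := by
    by_contra hcon
    have : (N : ℝ) ≤ 0 := not_lt.mp hcon
    nlinarith
  have hN0 : 0 < N := by exact_mod_cast hNpos
  have hN4 : (4 : ℝ) ≤ N := by
    have : 1 ≤ (1 / 4 : ℝ) * N := hN.trans (by gcongr)
    linarith
  have hN4' : 4 ≤ N := by exact_mod_cast hN4
  set u : ℝ := 1 / N with hu
  have hupos : 0 < u := by positivity
  have hud : u ≤ δ := by
    rw [hu, div_le_iff₀ hNpos]
    exact hN
  have hbu : β * u ≤ 1 / 4 := by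
    calc β * u ≤ β * (1 / (4 * β)) := by gcongr; exact hud.trans d3
      _ = 1 / 4 := by field_simp
  have hg : β / N = β * u := by rw [hu]; ring
  obtain ⟨hh1, hh2⟩ := abs_le.mp (hh.trans d1)
  obtain ⟨hZ1, hZ2⟩ := abs_le.mp (hZ.trans d1)
  have hZpos : 0 < Z := by linarith
  have heta : eta β N h = (1 + β * u) / 2 * u * h := by
    rw [eta, hg, hu]
    field_simp
  have hetab : |s * eta β N h| ≤ 1 / 2 := by
    rw [heta, abs_mul, abs_mul, abs_of_pos (by positivity : 0 < (1 + β * u) / 2 * u), hsabs]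
    have : (1 + β * u) / 2 * u ≤ (1 + 1 / 4) / 2 * (1 / 4) := by
      gcongr
      exact hud.trans d1
    have h4 : |h| ≤ 1 / 4 := hh.trans d1
    have := mul_le_mul this h4 (abs_nonneg _) (by norm_num)
    linarith
  have hΦpos := hbox h Z u (hh.trans d0) (hZ.trans d0) (by rw [abs_of_pos hupos]; exact hud.trans d0)
  simp only [hΦ] at hΦpos
  -- first factor
  have hsh : |s * h| ≤ 1 / 20 := by
    rw [abs_mul, hsabs]
    linarith [hh.trans d1]
  obtain ⟨hsh1, hsh2⟩ := abs_le.mp hsh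
  set a := 1 + (1 + β * u) * (s * h) with ha
  have hapos : 0 < a := by
    have e5 := mul_le_mul_of_nonneg_left hsh1 (by positivity : 0 ≤ 1 + β * u)
    rw [ha]
    linarith
  have ha2 : (1 + β * u) * (s * h) = 2 * N * (s * eta β N h) := by
    rw [heta, hu]
    field_simp
  have hfirst := first N hN0 ((1 + β * u) * (s * h)) (s * eta β N h)
    (by linarith [(abs_le.mp hetab).1]) ha2 hapos.le
  rw [← ha] at hfirst
  -- the quotient
  set w := s ^ 2 * ((1 + h) / (p * Z) - 1 - 2 * h) with hw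
  have hΓN : Γ ^ N ≤ a ^ N * Real.exp (β * w / a) := by
    have e1 : Γ ≤ a * (1 + u * (β * w / a)) := by
      refine hΓ2.trans (le_of_eq ?_)
      rw [hg, ← ha, mul_add, mul_one]
      have e0 : a * (u * (β * w / a)) = β * u * w := by
        rw [mul_div_assoc', mul_div_assoc', mul_div_cancel_left₀ _ hapos.ne']
        ring
      rw [e0]
    have e2 : 0 ≤ 1 + u * (β * w / a) := by
      by_contra hcon
      have := mul_neg_of_pos_of_neg hapos (not_le.mp hcon)
      linarith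
    calc Γ ^ N ≤ (a * (1 + u * (β * w / a))) ^ N := pow_le_pow_left₀ hΓ e1 N
      _ = a ^ N * (1 + u * (β * w / a)) ^ N := mul_pow _ _ _
      _ ≤ a ^ N * (Real.exp (u * (β * w / a))) ^ N := by
        have e3 : 1 + u * (β * w / a) ≤ Real.exp (u * (β * w / a)) := by
          rw [add_comm]
          exact Real.add_one_le_exp _
        have e4 : (1 + u * (β * w / a)) ^ N ≤ (Real.exp (u * (β * w / a))) ^ N :=
          pow_le_pow_left₀ e2 e3 N
        exact mul_le_mul_of_nonneg_left e4 (by positivity)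
      _ = a ^ N * Real.exp (β * w / a) := by
        rw [← Real.exp_nat_mul]
        congr 2
        rw [hu]
        field_simp
  have hb : 0 < 1 + s * eta β N h := by linarith [(abs_le.mp hetab).1]
  set R := ((N ^ 2).choose 8 : ℝ) / ((N : ℝ) ^ 2) ^ 8 * (M / (1 + s * eta β N h) ^ 8) with hR
  have hR0 : 0 ≤ R := by positivity
  have hRE : 1 + R ≤ Real.exp (β * w / a) := by
    have e1 : a ^ N * (1 + R) ≤ a ^ N * Real.exp (β * w / a) :=
      (mul_le_mul_of_nonneg_right hfirst (by linarith)).trans (hpow.trans hΓN)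
    exact le_of_mul_le_mul_left e1 (by positivity)
  -- choose
  have hn : 8 ≤ N ^ 2 := by nlinarith
  have hch := choose_lower (N ^ 2) hn
  have hu2 : 7 / (((N ^ 2 : ℕ) : ℝ)) = 7 * u ^ 2 := by
    rw [hu]
    push_cast
    field_simp
  rw [hu2] at hch
  push_cast at hch
  have hu1 : u ^ 2 ≤ 1 / 16 := by
    have : u ≤ 1 / 4 := hud.trans d1
    nlinarith
  have hq : 0 < 1 - 7 * u ^ 2 := by linarith
  have hfin : M ≤ 40320 * (Real.exp (β * w / a) - 1) * (1 + s * eta β N h) ^ 8 /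
      (1 - 7 * u ^ 2) ^ 8 := by
    rw [le_div_iff₀ (by positivity)]
    have e1 : (1 - 7 * u ^ 2) ^ 8 / 40320 * (M / (1 + s * eta β N h) ^ 8) ≤
        Real.exp (β * w / a) - 1 := by
      refine le_trans ?_ (by linarith : R ≤ Real.exp (β * w / a) - 1)
      rw [hR]
      gcongr
    rw [div_mul_div_comm, div_le_iff₀ (by positivity)] at e1
    linarith
  rw [hs8]
  have hfin2 : M / (1 / 390625) ≤ 15750000000 * (Real.exp (β * w / a) - 1) *
      (1 + s * ((1 + β * u) / 2 * u * h)) ^ 8 / (1 - 7 * u ^ 2) ^ 8 := by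
    rw [← heta]
    have e1 : M / (1 / 390625) = 390625 * M := by ring
    rw [e1]
    calc 390625 * M ≤ 390625 * (40320 * (Real.exp (β * w / a) - 1) * (1 + s * eta β N h) ^ 8 /
          (1 - 7 * u ^ 2) ^ 8) := by linarith
      _ = _ := by ring
  linarith

theorem momScalar : MomScalar := by
  intro p β B0 ε hp hp1 hβ hB hε
  obtain ⟨δ1, h1, H1⟩ := momScalar_s (1 / 5) (Or.inl rfl) p β B0 ε hp hp1 hβ hB hε
  obtain ⟨δ2, h2, H2⟩ := momScalar_s (-(1 / 5)) (Or.inr rfl) p β B0 ε hp hp1 hβ hB hε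
  refine ⟨min δ1 δ2, lt_min h1 h2, ?_⟩
  intro N h Z s Γ M hN hh hZ hs hΓ hM hΓ2 hpow
  have hNn : (0 : ℝ) ≤ N := Nat.cast_nonneg N
  rcases hs with rfl | rfl
  · exact H1 N h Z Γ M (hN.trans (by gcongr; exact min_le_left _ _)) (hh.trans (min_le_left _ _))
      (hZ.trans (min_le_left _ _)) hΓ hM hΓ2 hpow
  · exact H2 N h Z Γ M (hN.trans (by gcongr; exact min_le_right _ _)) (hh.trans (min_le_right _ _))
      (hZ.trans (min_le_right _ _)) hΓ hM hΓ2 hpow

end Pool.Agent.W22.RS
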