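import Pool.Agent.W478R.ScalarDefs
import Pool.Agent.W22.RS.Bas

set_option autoImplicit false

namespace Pool.Agent.W22.RS

open W478R Filter Topology H110R2

/-- `a ^ (1+g) ≤ a (1 + g log a + g^2 log^2 a)` -/
theorem rpow_upper (a g : ℝ) (ha : 0 < a) (h : |g * Real.log a| ≤ 1) :
    a ^ (1 + g) ≤ a * (1 + g * Real.log a + g ^ 2 * Real.log a ^ 2) := by
  rw [Real.rpow_add ha, Real.rpow_one, Real.rpow_def_of_pos ha]
  have h1 : Real.exp (Real.log a * g) ≤ 1 + g * Real.log a + g ^ 2 * Real.log a ^ 2 := by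
    rw [mul_comm (Real.log a) g]
    have h2 := Real.abs_exp_sub_one_sub_id_le h
    have h3 := (abs_le.mp h2).2
    nlinarith
  exact mul_le_mul_of_nonneg_left h1 ha.le

theorem softScalar : SoftScalar := by
  intro p β T L ε hp hp1 hβ hT hT1 hL hε hε1
  set b := 1 - T with hb
  have hbpos : 0 < b := by linarith
  set A : ℝ × ℝ × ℝ → ℝ := fun q => 1 - T + T / (p * q.2.1) with hA
  set X : ℝ × ℝ × ℝ → ℝ := fun q =>
    ((1 + q.1) * (p * q.2.1) * (A q) * Real.log (A q) +
      (1 - (1 + q.1) * (p * q.2.1)) * b * Real.log b +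
      β * q.2.2 * ((1 + q.1) * (p * q.2.1) * (A q) * Real.log (A q) ^ 2 +
      (1 - (1 + q.1) * (p * q.2.1)) * b * Real.log b ^ 2) - T * q.1) with hX
  set Φ : ℝ × ℝ × ℝ → ℝ := fun q => 1 - (1 - ε) * Real.exp (β * X q /
      (1 + (1 + β * q.2.2) * (T * q.1)) - β * KK p T +
      (2 * L * |T * ((1 + β * q.2.2) / 2 * q.2.2 * q.1)| + 8 * L ^ 2 * q.2.2 ^ 2)) with hΦ
  have hA0 : A (0, 1, 0) = (p + (1 - p) * T) / p := by
    simp only [hA]
    field_simp
    ring
  have hA0pos : 0 < A (0, 1, 0) := by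
    rw [hA0]
    have : 0 < (1 - p) * T := mul_pos (by linarith) hT
    positivity
  have cA : ContinuousAt A (0, 1, 0) := by
    refine ContinuousAt.add continuousAt_const (ContinuousAt.div continuousAt_const ?_ ?_)
    · fun_prop
    · show p * 1 ≠ 0
      rw [mul_one]
      exact hp.ne'
  have clog : ContinuousAt (fun q => Real.log (A q)) (0, 1, 0) := cA.log hA0pos.ne'
  have cP : ContinuousAt (fun q : ℝ × ℝ × ℝ => (1 + q.1) * (p * q.2.1)) (0, 1, 0) := by fun_prop
  have cX : ContinuousAt X (0, 1, 0) := by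
    refine ContinuousAt.sub (ContinuousAt.add (ContinuousAt.add ?_ ?_) ?_) (by fun_prop)
    · exact (cP.mul cA).mul clog
    · exact ((continuousAt_const.sub cP).mul continuousAt_const).mul continuousAt_const
    · refine ContinuousAt.mul (by fun_prop) (ContinuousAt.add ?_ ?_)
      · exact (cP.mul cA).mul (clog.pow 2)
      · exact ((continuousAt_const.sub cP).mul continuousAt_const).mul continuousAt_const
  have hc : ContinuousAt Φ (0, 1, 0) := by
    refine continuousAt_const.sub (continuousAt_const.mul ?_)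
    refine Real.continuous_exp.continuousAt.comp ?_
    refine ContinuousAt.add (ContinuousAt.sub (ContinuousAt.div (continuousAt_const.mul cX)
      (by fun_prop) ?_) continuousAt_const) (by fun_prop)
    show 1 + (1 + β * 0) * (T * 0) ≠ 0
    norm_num
  have hX0 : X (0, 1, 0) = KK p T := by
    have e1 : X (0, 1, 0) = (1 + 0) * (p * 1) * A (0, 1, 0) * Real.log (A (0, 1, 0)) +
      (1 - (1 + 0) * (p * 1)) * b * Real.log b +
      β * 0 * ((1 + 0) * (p * 1) * A (0, 1, 0) * Real.log (A (0, 1, 0)) ^ 2 +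
      (1 - (1 + 0) * (p * 1)) * b * Real.log b ^ 2) - T * 0 := rfl
    rw [e1, hA0, KK]
    have e2 : (1 + 0) * (p * 1) * ((p + (1 - p) * T) / p) = p + (1 - p) * T := by
      rw [add_zero, one_mul, mul_one, mul_div_cancel₀ _ hp.ne']
    rw [e2]
    ring
  have h0 : 0 < Φ (0, 1, 0) := by
    have e1 : Φ (0, 1, 0) = 1 - (1 - ε) * Real.exp (β * X (0, 1, 0) /
      (1 + (1 + β * 0) * (T * 0)) - β * KK p T +
      (2 * L * |T * ((1 + β * 0) / 2 * 0 * 0)| + 8 * L ^ 2 * 0 ^ 2)) := rfl
    rw [e1, hX0]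
    have e2 : β * KK p T / (1 + (1 + β * 0) * (T * 0)) - β * KK p T +
      (2 * L * |T * ((1 + β * 0) / 2 * 0 * 0)| + 8 * L ^ 2 * 0 ^ 2) = 0 := by
      simp
    rw [e2, Real.exp_zero]
    linarith
  obtain ⟨δ0, hδ0, hbox⟩ := box Φ hc h0
  -- further smallness: P ≤ 1, A > 0, |g log A| ≤ 1
  set Ψ1 : ℝ × ℝ × ℝ → ℝ := fun q => 1 - (1 + q.1) * (p * q.2.1) with hΨ1
  obtain ⟨δ1, hδ1, hbox1⟩ := box Ψ1 (continuousAt_const.sub cP) (by
    show 0 < 1 - (1 + 0) * (p * 1)
    linarith)
  obtain ⟨δ2, hδ2, hbox2⟩ := box A cA hA0pos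
  obtain ⟨δ3, hδ3, hbox3⟩ := box (fun q => 1 - |β * q.2.2 * Real.log (A q)|)
    (continuousAt_const.sub ((ContinuousAt.mul (by fun_prop) clog).abs)) (by
      show 0 < 1 - |β * 0 * Real.log (A (0, 1, 0))|
      simp)
  obtain ⟨δ4, hδ4, hbox4⟩ := box (fun q => 1 - |β * q.2.2 * Real.log b|)
    (by fun_prop) (by
      show 0 < 1 - |β * 0 * Real.log b|
      simp)
  set δ := min (min (min δ0 δ1) (min δ2 (min δ3 δ4)))
    (min (1 / 4) (min (1 / (4 * L)) (1 / (4 * β)))) with hδ
  have d0 : δ ≤ δ0 := (min_le_left _ _).trans ((min_le_left _ _).trans (min_le_left _ _))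
  have d0' : δ ≤ δ1 := (min_le_left _ _).trans ((min_le_left _ _).trans (min_le_right _ _))
  have d0'' : δ ≤ δ2 := (min_le_left _ _).trans ((min_le_right _ _).trans (min_le_left _ _))
  have e0 : δ ≤ min δ3 δ4 := (min_le_left _ _).trans ((min_le_right _ _).trans (min_le_right _ _))
  have e3 : δ ≤ δ3 := e0.trans (min_le_left _ _)
  have e4 : δ ≤ δ4 := e0.trans (min_le_right _ _)
  have d1 : δ ≤ 1 / 4 := (min_le_right _ _).trans (min_le_left _ _)
  have d2 : δ ≤ 1 / (4 * L) := (min_le_right _ _).trans ((min_le_right _ _).trans (min_le_left _ _))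
  have d3 : δ ≤ 1 / (4 * β) :=
    (min_le_right _ _).trans ((min_le_right _ _).trans (min_le_right _ _))
  have hδpos : 0 < δ := by positivity
  refine ⟨δ, hδpos, ?_⟩
  intro N h Z ξ Γ hN hh hZ hξ hΓ hΓ2
  clear_value δ
  have hNpos : (0 : ℝ) < N := by
    by_contra hcon
    have : (N : ℝ) ≤ 0 := not_lt.mp hcon
    nlinarith
  have hN0 : 0 < N := by exact_mod_cast hNpos
  set u : ℝ := 1 / N with hu
  have hupos : 0 < u := by positivity
  have hud : u ≤ δ := by
    rw [hu, div_le_iff₀ hNpos]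
    exact hN
  have hua : |u| ≤ δ := by rw [abs_of_pos hupos]; exact hud
  have hbu : β * u ≤ 1 / 4 := by
    calc β * u ≤ β * (1 / (4 * β)) := by gcongr; exact hud.trans d3
      _ = 1 / 4 := by field_simp
  have hg : β / N = β * u := by rw [hu]; ring
  obtain ⟨hh1, hh2⟩ := abs_le.mp (hh.trans d1)
  obtain ⟨hZ1, hZ2⟩ := abs_le.mp (hZ.trans d1)
  have hZpos : 0 < Z := by linarith
  have heta : eta β N h = (1 + β * u) / 2 * u * h := by
    rw [eta, hg, hu]
    field_simp
  have hetab : |T * eta β N h| ≤ 1 / 2 := by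
    rw [heta, abs_mul, abs_mul, abs_of_pos (by positivity : 0 < (1 + β * u) / 2 * u),
      abs_of_pos hT]
    have e1 : (1 + β * u) / 2 * u ≤ (1 + 1 / 4) / 2 * (1 / 4) := by
      gcongr
      exact hud.trans d1
    have h4 : |h| ≤ 1 / 4 := hh.trans d1
    have e2 := mul_le_mul e1 h4 (abs_nonneg _) (by norm_num)
    have e5 : 0 ≤ (1 + β * u) / 2 * u * |h| := by positivity
    have e6 : T * ((1 + β * u) / 2 * u * |h|) ≤ 1 * ((1 + β * u) / 2 * u * |h|) :=
      mul_le_mul_of_nonneg_right hT1.le e5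
    linarith
  have hΦpos := hbox h Z u (hh.trans d0) (hZ.trans d0) (hua.trans d0)
  have hP1 := hbox1 h Z u (hh.trans d0') (hZ.trans d0') (hua.trans d0')
  have hApos := hbox2 h Z u (hh.trans d0'') (hZ.trans d0'') (hua.trans d0'')
  have hlogA := hbox3 h Z u (hh.trans e3) (hZ.trans e3) (hua.trans e3)
  have hlogb := hbox4 h Z u (hh.trans e4) (hZ.trans e4) (hua.trans e4)
  simp only [hΨ1] at hP1
  simp only [] at hlogA hlogb
  set a' := A (h, Z, u) with ha'
  have ha'e : a' = 1 - T + T / (p * Z) := rfl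
  set P := (1 + h) * (p * Z) with hP
  have hPpos : 0 < P := by
    have : 0 < 1 + h := by linarith
    positivity
  -- the second factor
  have hn4 : 4 * L ≤ ((N ^ 2 : ℕ) : ℝ) := by
    have e1 : 4 * L ≤ N := by
      have : 1 ≤ (1 / (4 * L)) * N := hN.trans (by gcongr)
      rw [div_mul_eq_mul_div, one_mul, le_div_iff₀ (by positivity)] at this
      linarith
    have e2 : (N : ℝ) ≤ (N : ℝ) ^ 2 := by
      have : (1 : ℝ) ≤ N := by exact_mod_cast hN0
      nlinarith
    push_cast
    linarith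
  have hTξ : |T * ξ| ≤ L := by
    rw [abs_mul, abs_of_pos hT]
    have e1 := mul_le_mul_of_nonneg_right hT1.le (abs_nonneg ξ)
    linarith
  have hsec := second (T * ξ) L (T * eta β N h) (N ^ 2) hetab hTξ hL (by positivity) hn4
  set κ := 2 * L * |T * ((1 + β * u) / 2 * u * h)| + 8 * L ^ 2 * u ^ 2 with hκ
  have hsec2 : Real.exp (T * ξ) * Real.exp (-κ) ≤
      (max (1 + T * ξ / ((N : ℝ) ^ 2 * (1 + T * eta β N h))) 0) ^ (N ^ 2) := by
    rw [← Real.exp_add]
    refine le_trans (le_of_eq ?_) (hsec.trans (le_of_eq ?_))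
    · congr 1
      rw [heta, hκ, hu]
      push_cast
      field_simp
      ring
    · push_cast
      rfl
  -- the first factor
  have hTh : |T * h| ≤ 1 / 4 := by
    rw [abs_mul, abs_of_pos hT]
    have e1 := mul_le_mul_of_nonneg_right hT1.le (abs_nonneg h)
    linarith [hh.trans d1]
  obtain ⟨hTh1, hTh2⟩ := abs_le.mp hTh
  set a := 1 + (1 + β * u) * (T * h) with ha
  have hapos : 0 < a := by
    have e5 := mul_le_mul_of_nonneg_left hTh1 (by positivity : 0 ≤ 1 + β * u)
    rw [ha]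
    linarith
  have ha2 : (1 + β * u) * (T * h) = 2 * N * (T * eta β N h) := by
    rw [heta, hu]
    field_simp
  have hfirst := first N hN0 ((1 + β * u) * (T * h)) (T * eta β N h)
    (by linarith [(abs_le.mp hetab).1]) ha2 hapos.le
  rw [← ha] at hfirst
  -- upper bound for Γ
  have hΓ3 : Γ ≤ a + u * (β * X (h, Z, u)) := by
    have e1 := rpow_upper b (β * u) hbpos (by linarith)
    have e2 := rpow_upper a' (β * u) hApos (by linarith)
    have e5 : Γ ≤ (1 - P) * (b * (1 + β * u * Real.log b + (β * u) ^ 2 * Real.log b ^ 2)) +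
        P * (a' * (1 + β * u * Real.log a' + (β * u) ^ 2 * Real.log a' ^ 2)) := by
      refine hΓ2.trans ?_
      rw [hg]
      exact add_le_add (mul_le_mul_of_nonneg_left e1 hP1.le)
        (mul_le_mul_of_nonneg_left e2 hPpos.le)
    refine e5.trans (le_of_eq ?_)
    have e6 : X (h, Z, u) = P * a' * Real.log a' + (1 - P) * b * Real.log b +
      β * u * (P * a' * Real.log a' ^ 2 + (1 - P) * b * Real.log b ^ 2) - T * h := rfl
    have e7 : (1 - P) * b + P * a' = 1 + T * h := by
      rw [ha'e, hP, hb]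
      field_simp
      ring
    rw [e6, ha]
    linear_combination e7
  set x := X (h, Z, u) with hx
  have hΓN : Γ ^ N ≤ a ^ N * Real.exp (β * x / a) := by
    have e1 : Γ ≤ a * (1 + u * (β * x / a)) := by
      refine hΓ3.trans (le_of_eq ?_)
      rw [mul_add, mul_one]
      have e0 : a * (u * (β * x / a)) = u * (β * x) := by
        rw [mul_div_assoc', mul_div_assoc', mul_div_cancel_left₀ _ hapos.ne']
      rw [e0]
    have e2 : 0 ≤ 1 + u * (β * x / a) := by
      by_contra hcon
      have := mul_neg_of_pos_of_neg hapos (not_le.mp hcon)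
      linarith
    calc Γ ^ N ≤ (a * (1 + u * (β * x / a))) ^ N := pow_le_pow_left₀ hΓ e1 N
      _ = a ^ N * (1 + u * (β * x / a)) ^ N := mul_pow _ _ _
      _ ≤ a ^ N * (Real.exp (u * (β * x / a))) ^ N := by
        have e3 : 1 + u * (β * x / a) ≤ Real.exp (u * (β * x / a)) := by
          rw [add_comm]
          exact Real.add_one_le_exp _
        have e4 : (1 + u * (β * x / a)) ^ N ≤ (Real.exp (u * (β * x / a))) ^ N :=
          pow_le_pow_left₀ e2 e3 N
        exact mul_le_mul_of_nonneg_left e4 (by positivity)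
      _ = a ^ N * Real.exp (β * x / a) := by
        rw [← Real.exp_nat_mul]
        congr 2
        rw [hu]
        field_simp
  have hfin : (1 - ε) * Real.exp (-(β * KK p T)) * Real.exp (β * x / a) ≤ Real.exp (-κ) := by
    have e1 : (1 - ε) * Real.exp (β * x / a - β * KK p T + κ) ≤ 1 := by
      have e2 : 0 < 1 - (1 - ε) * Real.exp (β * x / a - β * KK p T + κ) := hΦpos
      linarith
    have e2 : Real.exp (β * x / a - β * KK p T + κ) =
        Real.exp (-(β * KK p T)) * Real.exp (β * x / a) * Real.exp κ := by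
      rw [← Real.exp_add, ← Real.exp_add]
      congr 1
      ring
    rw [e2] at e1
    rw [Real.exp_neg κ, ← one_div, le_div_iff₀ (Real.exp_pos _)]
    linarith
  have he : 0 ≤ 1 - ε := by linarith
  calc (1 - ε) * Real.exp (T * ξ) * Real.exp (-(β * KK p T)) * Γ ^ N
      ≤ (1 - ε) * Real.exp (T * ξ) * Real.exp (-(β * KK p T)) *
        (a ^ N * Real.exp (β * x / a)) := by gcongr
    _ = ((1 - ε) * Real.exp (-(β * KK p T)) * Real.exp (β * x / a)) *
        (Real.exp (T * ξ) * a ^ N) := by ring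
    _ ≤ Real.exp (-κ) * (Real.exp (T * ξ) * a ^ N) := by gcongr
    _ = a ^ N * (Real.exp (T * ξ) * Real.exp (-κ)) := by ring
    _ ≤ (1 + T * eta β N h) ^ (2 * N ^ 2)
        * (max (1 + T * ξ / ((N : ℝ) ^ 2 * (1 + T * eta β N h))) 0) ^ (N ^ 2) := by
        refine mul_le_mul hfirst hsec2 (by positivity) ?_
        have : 0 ≤ 1 + T * eta β N h := by linarith [(abs_le.mp hetab).1]
        positivity

end Pool.Agent.W22.RS
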